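import Pool.Agent.Q324.Lab.Basic
import Pool.Agent.NPC.Sat2

/-!
# Reconfiguration of colourings: definitions
-/

namespace Pool.Agent.Q324.OCR

open Pool.Agent.NPC Pool.Agent.H692R2

section Defs

variable {V : Type}

/-- `f` is a proper colouring of `G` with colours in `{0, ..., k - 1}`. -/
def IsCol (G : SimpleGraph V) (k : ℕ) (f : V → ℕ) : Prop :=
  (∀ v, f v < k) ∧ ∀ u v, G.Adj u v → f u ≠ f v

/-- `g` arises from `f` by recolouring (at most) one vertex; both are proper colourings. -/
def Step (G : SimpleGraph V) (k : ℕ) (f g : V → ℕ) : Prop :=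
  IsCol G k f ∧ IsCol G k g ∧ ∃ v, ∀ u, u ≠ v → f u = g u

/-- `g` is `k`-reachable from the proper colouring `f`. -/
def Reach (G : SimpleGraph V) (k : ℕ) (f g : V → ℕ) : Prop :=
  IsCol G k f ∧ Relation.ReflTransGen (Step G k) f g

/-- The number of colours used. -/
noncomputable def col (f : V → ℕ) : ℕ := (Set.range f).ncard

/-- The least number of colours of a colouring which is `k`-reachable from `f`. -/
noncomputable def chi (G : SimpleGraph V) (k : ℕ) (f : V → ℕ) : ℕ :=
  sInf {m | ∃ g, Reach G k f g ∧ m = col g}

/-- Perfect graphs. -/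
def IsPerfect (G : SimpleGraph V) : Prop :=
  ∀ S : Set V, (G.induce S).chromaticNumber = ((G.induce S).cliqueNum : ℕ∞)

theorem perfect_of_two [Finite V] {G : SimpleGraph V} (h : G.Colorable 2) : IsPerfect G := by
  intro S
  classical
  cases nonempty_fintype V
  have h2 : (G.induce S).Colorable 2 := by
    obtain ⟨c⟩ := h
    exact ⟨SimpleGraph.Coloring.mk (fun v => c v.1) (fun {u v} huv => c.valid huv)⟩
  refine le_antisymm ?_ (SimpleGraph.cliqueNum_le_chromaticNumber)
  by_cases he : ∃ u v, (G.induce S).Adj u v
  · obtain ⟨u, v, huv⟩ := he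
    have h3 : 2 ≤ (G.induce S).cliqueNum := by
      have h4 : (G.induce S).IsClique (({u, v} : Finset S) : Set S) := by
        intro a ha b hb hab
        simp only [Finset.coe_insert, Finset.coe_singleton, Set.mem_insert_iff,
          Set.mem_singleton_iff] at ha hb
        rcases ha with rfl | rfl <;> rcases hb with rfl | rfl
        · exact absurd rfl hab
        · exact huv
        · exact huv.symm
        · exact absurd rfl hab
      have h5 := SimpleGraph.IsClique.card_le_cliqueNum (tc := h4)
      rwa [Finset.card_pair huv.ne] at h5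
    calc (G.induce S).chromaticNumber ≤ ((2 : ℕ) : ℕ∞) :=
          SimpleGraph.chromaticNumber_le_iff_colorable.2 h2
      _ ≤ _ := by exact_mod_cast h3
  · rcases isEmpty_or_nonempty S with hS | hS
    · have : (G.induce S).Colorable 0 := SimpleGraph.colorable_zero_iff.2 hS
      exact (SimpleGraph.chromaticNumber_le_iff_colorable.2 this).trans (by simp)
    · obtain ⟨u⟩ := hS
      have h1 : (G.induce S).Colorable 1 :=
        ⟨SimpleGraph.Coloring.mk (fun _ => 0) (fun {u v} huv => absurd ⟨u, v, huv⟩ he)⟩
      have h3 : 1 ≤ (G.induce S).cliqueNum := by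
        have h4 : (G.induce S).IsClique (({u} : Finset S) : Set S) := by
          simp
        have h5 := SimpleGraph.IsClique.card_le_cliqueNum (tc := h4)
        simpa using h5
      calc (G.induce S).chromaticNumber ≤ ((1 : ℕ) : ℕ∞) :=
            SimpleGraph.chromaticNumber_le_iff_colorable.2 h1
        _ ≤ _ := by exact_mod_cast h3

open Classical in
/-- Two proper colourings that differ on an independent set are reachable from each other. -/
theorem bulk [Finite V] {G : SimpleGraph V} {k : ℕ} {f g : V → ℕ} (hf : IsCol G k f)
    (hg : IsCol G k g) (h : ∀ u v, G.Adj u v → f u = g u ∨ f v = g v) :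
    Relation.ReflTransGen (Step G k) f g := by
  classical
  cases nonempty_fintype V
  have hm : ∀ T : Finset V, IsCol G k (fun v => if v ∈ T then g v else f v) := by
    intro T
    refine ⟨fun v => ?_, fun u v huv => ?_⟩
    · dsimp only
      split_ifs
      · exact hg.1 v
      · exact hf.1 v
    · have h1 := hf.2 u v huv
      have h2 := hg.2 u v huv
      dsimp only
      split_ifs
      · exact h2
      · rcases h u v huv with h3 | h3
        · rw [← h3]; exact h1
        · rw [h3]; exact h2
      · rcases h u v huv with h3 | h3
        · rw [h3]; exact h2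
        · rw [← h3]; exact h1
      · exact h1
  have key : ∀ T : Finset V,
      Relation.ReflTransGen (Step G k) f (fun v => if v ∈ T then g v else f v) := by
    intro T
    induction T using Finset.induction_on with
    | empty => simpa using Relation.ReflTransGen.refl
    | insert a T ha ih =>
      refine ih.tail ⟨hm T, hm _, a, fun u hu => ?_⟩
      simp [Finset.mem_insert, hu]
  simpa using key Finset.univ

end Defs

/-- An instance: a graph `G`, the number `k` of colours, the bound `t` and the colouring `f₀` as
a list. -/
abbrev Inst : Type := FinGraph × ℕ × ℕ × List ℕ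

/-- The colouring of the instance. -/
def Inst.f₀ (I : Inst) : Fin I.1.n → ℕ := fun i => I.2.2.2.getD i.1 0

/-- The list describes a proper colouring with colours in `{0, ..., k - 1}` of the graph, which
has at least one edge. -/
def Valid (I : Inst) : Prop :=
  I.2.2.2.length = I.1.n ∧ IsCol I.1.graph I.2.1 I.f₀ ∧ ∃ u v, I.1.graph.Adj u v

/-- The question: is `χ(G, k, f₀) ≤ t`? -/
def Ask (I : Inst) : Prop := chi I.1.graph I.2.1 I.f₀ ≤ I.2.2.1

end Pool.Agent.Q324.OCR
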