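import Pool.Agent.Q324.OCR.Red

/-!
# Completeness and the theorem
-/

namespace Pool.Agent.Q324.OCR

open Pool.Agent.NPC Pool.Agent.H692R2 Pool.Agent.Q324.Lab

/-! ### Completeness -/

/-- palette of the first side -/
def pa (s c : ℕ) : ℕ := if (1 ≤ s ∧ c = 0) ∨ (2 ≤ s ∧ c = 3) then 1 else c

/-- palette of the second side -/
def pb (s c : ℕ) : ℕ := if (1 ≤ s ∧ c = 1) ∨ (2 ≤ s ∧ c = 3) then 0 else c

/-- the colourings -/
def Fc (s h h' : ℕ) (C X : ℕ → ℕ) (l : Lb) : ℕ :=
  if l.1 = 0 then pa s l.2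
  else if l.1 = 1 then pb s l.2
  else if l.1 = 2 then h
  else if l.1 = 3 then h'
  else if l.1 ≤ 5 then C l.2
  else X l.2

section

variable {φ : Fm}

theorem cl_ge {j c : ℕ} (h : c ∈ cl φ j) : 4 ≤ c := by
  simp only [cl, lc, List.mem_cons, List.not_mem_nil, or_false] at h
  rcases h with h | h | h <;> (split_ifs at h <;> omega)

theorem cl_lt (hb : ∀ c ∈ φ, c.1.2 < 3 * φ.length ∧ c.2.1.2 < 3 * φ.length ∧
      c.2.2.2 < 3 * φ.length) {j c : ℕ} (hj : j < φ.length) (h : c ∈ cl φ j) : c < kk φ := by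
  have e : cs φ j = φ[j] := by
    unfold cs
    rw [List.getD_eq_getElem _ _ hj]
  obtain ⟨h1, h2, h3⟩ := hb _ (List.getElem_mem hj)
  rw [← e] at h1 h2 h3
  have hkk : kk φ = 4 + 6 * φ.length := rfl
  simp only [cl, lc, List.mem_cons, List.not_mem_nil, or_false] at h
  rcases h with h | h | h <;> (split_ifs at h <;> omega)

theorem Fc_col (hφ : φ ≠ []) (hb : ∀ c ∈ φ, c.1.2 < 3 * φ.length ∧ c.2.1.2 < 3 * φ.length ∧
      c.2.2.2 < 3 * φ.length) {s h h' : ℕ} {C X : ℕ → ℕ}
    (hh : (s = 0 ∧ h = 1 ∧ h' = 0) ∨ (h = 2 ∧ h' = 2))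
    (hC : ∀ j < φ.length, C j = 2 ∨ C j ∈ cl φ j) (hC2 : h = 2 → ∀ j < φ.length, C j ≠ 2)
    (hX : ∀ x < 3 * φ.length, X x = 4 + 2 * x ∨ X x = 5 + 2 * x)
    (hCX : ∀ j < φ.length, ∀ x < 3 * φ.length, x ∈ vr φ j → C j ≠ X x) :
    ColL (vs φ) (ad φ) (kk φ) (Fc s h h' C X) := by
  have hm : 0 < φ.length := List.length_pos_iff.2 hφ
  have hkk : kk φ = 4 + 6 * φ.length := rfl
  have hC4 : ∀ j < φ.length, C j = 2 ∨ 4 ≤ C j := fun j hj => (hC j hj).imp id cl_ge
  refine colL_of ?_ ?_
  · rintro ⟨k, v⟩ hv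
    rw [mem_vs] at hv
    obtain ⟨h1, h2, h3⟩ := hv
    simp only at h1 h2 h3
    unfold Fc pa pb
    simp only
    split_ifs
    · omega
    · omega
    · omega
    · omega
    · omega
    · omega
    · have hv : v < φ.length := by omega
      rcases hC v hv with h4 | h4
      · omega
      · exact cl_lt hb hv h4
    · have hv : v < 3 * φ.length := by omega
      rcases hX v hv with h4 | h4 <;> omega
  · rintro ⟨k, v⟩ ⟨k', v'⟩ hp hq hpq
    rw [ad_iff] at hpq
    rw [mem_vs] at hp hq
    simp only at hpq hp hq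
    obtain ⟨p1, p2, p3⟩ := hp
    obtain ⟨q1, q2, q3⟩ := hq
    rcases hpq with ⟨rfl, h1, h2⟩ | ⟨rfl, h1, h2⟩ | ⟨rfl, rfl⟩ | ⟨rfl, rfl⟩ | ⟨rfl, rfl, h2⟩ |
      ⟨rfl, rfl, h2⟩
    · simp only [List.mem_cons, List.not_mem_nil, or_false] at h1
      rcases h1 with rfl | rfl | rfl | rfl
      · simp only [LsB, if_true] at h2
        have h3 : v ≠ v' ∧ ¬ (v' = 1 ∧ v = 0) := by
          split_ifs at h2 <;> simp only [List.mem_cons, List.not_mem_nil, or_false] at h2 <;> omega
        simp only [Fc, pa, pb, if_true, one_ne_zero, if_false]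
        split_ifs <;> omega
      · have h3 : v ≠ 1 ∧ v ≠ 2 := by
          simp [LsB] at h2
          omega
        simp only [Fc, pa, if_true, OfNat.ofNat_ne_zero, OfNat.ofNat_ne_one, if_false]
        split_ifs <;> omega
      · have hv : v' < φ.length := by omega
        have h3 : v ≠ 2 ∧ v ∉ cl φ v' := by
          simpa [LsB] using h2
        have h4 := hC4 v' hv
        have h5 : Fc s h h' C X (5, v') = C v' := by simp [Fc]
        have h6 : Fc s h h' C X (0, v) = pa s v := by simp [Fc]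
        rw [h5, h6]
        unfold pa
        split_ifs
        · omega
        · intro he
          rcases hC v' hv with h7 | h7
          · omega
          · rw [← he] at h7
            exact h3.2 h7
      · have hv : v' < 3 * φ.length := by omega
        have h3 : v ≠ 4 + 2 * v' ∧ v ≠ 5 + 2 * v' := by
          simpa [LsB] using h2
        have h4 := hX v' hv
        have h5 : Fc s h h' C X (6, v') = X v' := by simp [Fc]
        have h6 : Fc s h h' C X (0, v) = pa s v := by simp [Fc]
        rw [h5, h6]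
        unfold pa
        split_ifs <;> omega
    · simp only [List.mem_cons, List.not_mem_nil, or_false] at h1
      have h6 : Fc s h h' C X (1, v') = pb s v' := by simp [Fc]
      rw [h6]
      rcases h1 with rfl | rfl | rfl
      · have h3 : v' ≠ 0 ∧ v' ≠ 2 := by
          simpa [LsA] using h2
        have h5 : Fc s h h' C X (3, v) = h' := by simp [Fc]
        rw [h5]
        unfold pb
        split_ifs <;> omega
      · have hv : v < φ.length := by omega
        have h3 : v' ≠ 2 ∧ v' ∉ cl φ v := by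
          simpa [LsA] using h2
        have h4 := hC4 v hv
        have h5 : Fc s h h' C X (4, v) = C v := by simp [Fc]
        rw [h5]
        unfold pb
        split_ifs
        · omega
        · intro he
          rcases hC v hv with h7 | h7
          · omega
          · rw [he] at h7
            exact h3.2 h7
      · have hv : v < 3 * φ.length := by omega
        have h3 : v' ≠ 4 + 2 * v ∧ v' ≠ 5 + 2 * v := by
          simpa [LsA] using h2
        have h4 := hX v hv
        have h5 : Fc s h h' C X (7, v) = X v := by simp [Fc]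
        rw [h5]
        unfold pb
        split_ifs <;> omega
    · have hv : v' < φ.length := by omega
      have h5 : Fc s h h' C X (3, v) = h' := by simp [Fc]
      have h6 : Fc s h h' C X (5, v') = C v' := by simp [Fc]
      rw [h5, h6]
      have h4 := hC4 v' hv
      rcases hh with hh | hh
      · omega
      · have := hC2 hh.1 v' hv
        omega
    · have hv : v < φ.length := by omega
      have h5 : Fc s h h' C X (4, v) = C v := by simp [Fc]
      have h6 : Fc s h h' C X (2, v') = h := by simp [Fc]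
      rw [h5, h6]
      have h4 := hC4 v hv
      rcases hh with hh | hh
      · omega
      · have := hC2 hh.1 v hv
        omega
    · have h5 : Fc s h h' C X (4, v) = C v := by simp [Fc]
      have h6 : Fc s h h' C X (6, v') = X v' := by simp [Fc]
      rw [h5, h6]
      exact hCX v (by omega) v' (by omega) h2
    · have h5 : Fc s h h' C X (7, v) = X v := by simp [Fc]
      have h6 : Fc s h h' C X (5, v') = C v' := by simp [Fc]
      rw [h5, h6]
      exact (hCX v' (by omega) v (by omega) h2).symm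

/-- The sides of adjacent labels. -/
theorem la_kinds {a b : Lb} (h : La (vs φ) (ad φ) a b) :
    (ad φ a b = true) ∨ (ad φ b a = true) := ((sym_iff _ _ _).1 h.2.2).2

theorem bulk_of {s h h' : ℕ} {C X : ℕ → ℕ} {t g g' : ℕ} {D Y : ℕ → ℕ}
    (h1 : ColL (vs φ) (ad φ) (kk φ) (Fc s h h' C X))
    (h2 : ColL (vs φ) (ad φ) (kk φ) (Fc t g g' D Y))
    (hd : ∀ p q, ad φ p q = true → Fc s h h' C X p = Fc t g g' D Y p ∨
      Fc s h h' C X q = Fc t g g' D Y q) :
    Relation.ReflTransGen (Step (labGraph (vs φ) (ad φ)).graph (kk φ))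
      (drop (vs φ) (Fc s h h' C X)) (drop (vs φ) (Fc t g g' D Y)) := by
  refine bulkL h1 h2 fun a b hab => ?_
  rcases la_kinds hab with h | h
  · exact hd a b h
  · exact (hd b a h).symm

/-- the initial colouring -/
def F0 : Lb → ℕ := Fc 0 1 0 (fun _ => 2) (fun x => 4 + 2 * x)

theorem F0_col (hφ : φ ≠ []) (hb : ∀ c ∈ φ, c.1.2 < 3 * φ.length ∧ c.2.1.2 < 3 * φ.length ∧
      c.2.2.2 < 3 * φ.length) : ColL (vs φ) (ad φ) (kk φ) F0 :=
  Fc_col hφ hb (Or.inl ⟨rfl, rfl, rfl⟩) (fun _ _ => Or.inl rfl) (by norm_num)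
    (fun _ _ => Or.inl rfl) (fun _ _ x _ _ => by omega)

theorem complete (hφ : φ ≠ []) (hb : ∀ c ∈ φ, c.1.2 < 3 * φ.length ∧ c.2.1.2 < 3 * φ.length ∧
      c.2.2.2 < 3 * φ.length) (hs : SAT3 φ) :
    ∃ F : Lb → ℕ, ColL (vs φ) (ad φ) (kk φ) F ∧ (∀ l ∈ vs φ, F l ≠ 3) ∧
      Relation.ReflTransGen (Step (labGraph (vs φ) (ad φ)).graph (kk φ))
        (drop (vs φ) F0) (drop (vs φ) F) := by
  have hm : 0 < φ.length := List.length_pos_iff.2 hφ
  obtain ⟨τ, hτ⟩ := hs
  let X : ℕ → ℕ := fun x => if τ x = true then 4 + 2 * x else 5 + 2 * x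
  have hX : ∀ x < 3 * φ.length, X x = 4 + 2 * x ∨ X x = 5 + 2 * x := by
    intro x _
    simp only [X]
    split_ifs
    · exact Or.inl rfl
    · exact Or.inr rfl
  have key : ∀ (l : Lit ℕ) (x : ℕ), τ l.2 = l.1 → lc l ≠ X x := by
    rintro ⟨s, y⟩ x h
    simp only at h
    by_cases hxy : x = y
    · subst hxy
      cases s
      · simp only [lc, X, h, Bool.false_eq_true, if_false]
        omega
      · simp only [lc, X, h, if_true]
        omega
    · simp only [lc, X]
      split_ifs <;> omega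
  have hw : ∀ j : ℕ, ∃ w, j < φ.length → (w ∈ cl φ j ∧ ∀ x, w ≠ X x) := by
    intro j
    by_cases hj : j < φ.length
    · have e : cs φ j = φ[j] := by
        unfold cs
        rw [List.getD_eq_getElem _ _ hj]
      have h1 := hτ _ (List.getElem_mem hj)
      rw [← e] at h1
      rcases h1 with h1 | h1 | h1
      · exact ⟨lc (cs φ j).1, fun _ => ⟨by simp [cl], fun x => key _ x h1⟩⟩
      · exact ⟨lc (cs φ j).2.1, fun _ => ⟨by simp [cl], fun x => key _ x h1⟩⟩
      · exact ⟨lc (cs φ j).2.2, fun _ => ⟨by simp [cl], fun x => key _ x h1⟩⟩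
    · exact ⟨0, fun h => absurd h hj⟩
  choose C hC using hw
  have hC2 : ∀ j < φ.length, C j ≠ 2 := by
    intro j hj
    have := cl_ge (hC j hj).1
    omega
  have c0 := F0_col hφ hb
  have c1 : ColL (vs φ) (ad φ) (kk φ) (Fc 0 1 0 (fun _ => 2) X) :=
    Fc_col hφ hb (Or.inl ⟨rfl, rfl, rfl⟩) (fun _ _ => Or.inl rfl) (by norm_num)
      hX (fun _ _ x hx _ => by have := hX x hx; omega)
  have c2 : ColL (vs φ) (ad φ) (kk φ) (Fc 0 1 0 C X) :=
    Fc_col hφ hb (Or.inl ⟨rfl, rfl, rfl⟩) (fun j hj => Or.inr (hC j hj).1) (by norm_num)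
      hX (fun j hj x _ _ => (hC j hj).2 x)
  have c3 : ∀ s, ColL (vs φ) (ad φ) (kk φ) (Fc s 2 2 C X) := fun s =>
    Fc_col hφ hb (Or.inr ⟨rfl, rfl⟩) (fun j hj => Or.inr (hC j hj).1) (fun _ => hC2)
      hX (fun j hj x _ _ => (hC j hj).2 x)
  have s1 := bulk_of c0 c1 (fun p q hpq => by
    rw [ad_iff] at hpq
    have : p.1 < 6 ∨ q.1 < 6 := by
      simp only [List.mem_cons, List.not_mem_nil, or_false] at hpq
      omega
    rcases this with h | h
    · left
      unfold Fc
      split_ifs <;> first | rfl | omega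
    · right
      unfold Fc
      split_ifs <;> first | rfl | omega)
  have s2 := bulk_of c1 c2 (fun p q hpq => by
    rw [ad_iff] at hpq
    have : (p.1 < 4 ∨ 6 ≤ p.1) ∨ (q.1 < 4 ∨ 6 ≤ q.1) := by
      simp only [List.mem_cons, List.not_mem_nil, or_false] at hpq
      omega
    rcases this with h | h
    · left
      unfold Fc
      split_ifs <;> first | rfl | omega
    · right
      unfold Fc
      split_ifs <;> first | rfl | omega)
  have s3 := bulk_of c2 (c3 0) (fun p q hpq => by
    rw [ad_iff] at hpq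
    have : (p.1 ≠ 2 ∧ p.1 ≠ 3) ∨ (q.1 ≠ 2 ∧ q.1 ≠ 3) := by
      simp only [List.mem_cons, List.not_mem_nil, or_false] at hpq
      omega
    rcases this with h | h
    · left
      unfold Fc
      split_ifs <;> first | rfl | omega
    · right
      unfold Fc
      split_ifs <;> first | rfl | omega)
  have hpal : ∀ (s t : ℕ) (l : Lb), pa s l.2 = pa t l.2 → pb s l.2 = pb t l.2 →
      Fc s 2 2 C X l = Fc t 2 2 C X l := by
    intro s t l h1 h2
    unfold Fc
    split_ifs <;> first | rfl | assumption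
  have hpal' : ∀ (s t : ℕ) (l : Lb), l.1 ≠ 0 → l.1 ≠ 1 →
      Fc s 2 2 C X l = Fc t 2 2 C X l := by
    intro s t l h1 h2
    unfold Fc
    split_ifs <;> first | rfl | omega
  have s4 := bulk_of (c3 0) (c3 1) (fun p q hpq => by
    rw [ad_iff] at hpq
    by_cases hp : p.1 = 0
    · by_cases hq : q.1 = 1
      · by_cases hpq0 : p.2 = 0 ∧ q.2 = 1
        · exfalso
          rcases hpq with ⟨-, -, h⟩ | ⟨-, h, -⟩ | ⟨h, -⟩ | ⟨h, -⟩ | ⟨h, -⟩ | ⟨h, -⟩
          · simp [LsB, hq, hpq0.1, hpq0.2] at h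
          · simp [hp] at h
          · omega
          · omega
          · omega
          · omega
        · by_cases hp0 : p.2 = 0
          · right
            have hq1 : q.2 ≠ 1 := fun h => hpq0 ⟨hp0, h⟩
            unfold Fc
            rw [if_neg (by omega), if_pos hq, if_neg (by omega), if_pos hq]
            unfold pb
            rw [if_neg (by omega), if_neg (by omega)]
          · left
            unfold Fc
            rw [if_pos hp, if_pos hp]
            unfold pa
            rw [if_neg (by omega), if_neg (by omega)]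
      · right
        refine hpal' _ _ _ ?_ hq
        simp only [List.mem_cons, List.not_mem_nil, or_false] at hpq
        omega
    · left
      refine hpal' _ _ _ hp ?_
      simp only [List.mem_cons, List.not_mem_nil, or_false] at hpq
      omega)
  have s5 := bulk_of (c3 1) (c3 2) (fun p q hpq => by
    rw [ad_iff] at hpq
    by_cases hp : p.1 = 0
    · by_cases hq : q.1 = 1
      · by_cases hpq0 : p.2 = 3 ∧ q.2 = 3
        · exfalso
          rcases hpq with ⟨-, -, h⟩ | ⟨-, h, -⟩ | ⟨h, -⟩ | ⟨h, -⟩ | ⟨h, -⟩ | ⟨h, -⟩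
          · simp [LsB, hq, hpq0.1, hpq0.2] at h
          · simp [hp] at h
          · omega
          · omega
          · omega
          · omega
        · by_cases hp0 : p.2 = 3
          · right
            have hq1 : q.2 ≠ 3 := fun h => hpq0 ⟨hp0, h⟩
            unfold Fc
            rw [if_neg (by omega), if_pos hq, if_neg (by omega), if_pos hq]
            unfold pb
            split_ifs <;> omega
          · left
            unfold Fc
            rw [if_pos hp, if_pos hp]
            unfold pa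
            split_ifs <;> omega
      · right
        refine hpal' _ _ _ ?_ hq
        simp only [List.mem_cons, List.not_mem_nil, or_false] at hpq
        omega
    · left
      refine hpal' _ _ _ hp ?_
      simp only [List.mem_cons, List.not_mem_nil, or_false] at hpq
      omega)
  refine ⟨Fc 2 2 2 C X, c3 2, ?_, s1.trans (s2.trans (s3.trans (s4.trans s5)))⟩
  rintro ⟨k, v⟩ hv
  rw [mem_vs] at hv
  simp only at hv
  unfold Fc pa pb
  simp only
  split_ifs
  · omega
  · omega
  · omega
  · omega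
  · omega
  · omega
  · have := cl_ge (hC v (by omega)).1
    omega
  · have := hX v (by omega)
    omega

end

/-! ### The reduction -/

/-- the reduction -/
noncomputable def red (φ : Fm) : Inst :=
  (labGraph (vs φ) (ad φ), kk φ, 3 + 6 * φ.length, (vs φ).map F0)

theorem red_f₀ (φ : Fm) : (red φ).f₀ = drop (vs φ) F0 := by
  funext i
  change ((vs φ).map F0).getD i.1 0 = F0 ((vs φ)[i.1]'i.2)
  have h : i.1 < ((vs φ).map F0).length := by
    rw [List.length_map]
    exact i.2
  rw [List.getD_eq_getElem _ _ h, List.getElem_map]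
  rfl

theorem red_valid {φ : Fm} (hφ : φ ≠ []) (hb : ∀ c ∈ φ, c.1.2 < 3 * φ.length ∧
    c.2.1.2 < 3 * φ.length ∧ c.2.2.2 < 3 * φ.length) : Valid (red φ) := by
  refine ⟨List.length_map _, ?_, ?_⟩
  · rw [red_f₀]
    exact drop_col (F0_col hφ hb)
  · have h0 : ((0, 0) : Lb) ∈ vs φ := mem_vs.2 ⟨by norm_num, by unfold kk; omega, Or.inl (by norm_num)⟩
    have h2 : ((2, 0) : Lb) ∈ vs φ :=
      mem_vs.2 ⟨by norm_num, by unfold kk; omega, Or.inr (Or.inl ⟨by norm_num, rfl⟩)⟩
    refine ⟨⟨(vs φ).idxOf (0, 0), List.idxOf_lt_length_iff.2 h0⟩,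
      ⟨(vs φ).idxOf (2, 0), List.idxOf_lt_length_iff.2 h2⟩, ?_⟩
    change sym (ad φ) ((vs φ)[(vs φ).idxOf (0, 0)]'(List.idxOf_lt_length_iff.2 h0))
          ((vs φ)[(vs φ).idxOf (2, 0)]'(List.idxOf_lt_length_iff.2 h2)) = true
    rw [List.getElem_idxOf, List.getElem_idxOf, sym_iff]
    exact ⟨by simp, Or.inl (ad_iff.2 (Or.inl ⟨rfl, by simp, by simp [LsB]⟩))⟩

theorem red_iff {φ : Fm} (hφ : φ ≠ []) (hb : ∀ c ∈ φ, c.1.2 < 3 * φ.length ∧
    c.2.1.2 < 3 * φ.length ∧ c.2.2.2 < 3 * φ.length) : SAT3 φ ↔ Ask (red φ) := by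
  have h0 : IsCol (red φ).1.graph (kk φ) (red φ).f₀ := (red_valid hφ hb).2.1
  constructor
  · intro hs
    obtain ⟨F, hF, h3, hr⟩ := complete hφ hb hs
    change chi (red φ).1.graph (kk φ) (red φ).f₀ ≤ 3 + 6 * φ.length
    have h1 : chi (red φ).1.graph (kk φ) (red φ).f₀ ≤ col (drop (vs φ) F) := by
      refine Nat.sInf_le ⟨drop (vs φ) F, ⟨h0, ?_⟩, rfl⟩
      rw [red_f₀]
      exact hr
    refine h1.trans ?_
    unfold col
    have h2 : Set.range (drop (vs φ) F) ⊆ (((Finset.range (kk φ)).erase 3 : Finset ℕ) : Set ℕ) := by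
      rintro _ ⟨i, rfl⟩
      rw [Finset.coe_erase, Finset.coe_range]
      exact ⟨(drop_col hF).1 i, h3 _ (List.getElem_mem _)⟩
    refine (Set.ncard_le_ncard h2 (Finset.finite_toSet _)).trans ?_
    rw [Set.ncard_coe_finset, Finset.card_erase_of_mem (by
      rw [Finset.mem_range]; unfold kk; omega), Finset.card_range]
    unfold kk
    omega
  · intro ha
    by_contra hs
    have hinv : ∀ g, Relation.ReflTransGen (Step (red φ).1.graph (kk φ)) (red φ).f₀ g →
        Inv φ (lift (vs φ) g) := by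
      intro g hg
      induction hg with
      | refl =>
        rw [red_f₀]
        have hkk : kk φ = 4 + 6 * φ.length := rfl
        refine ⟨fun c hc => ?_, fun c hc => ?_, ?_, ?_⟩
        · rw [lift_drop (mem_vs.2 ⟨by norm_num, hc, Or.inl (by norm_num)⟩)]
          simp [F0, Fc, pa]
        · rw [lift_drop (mem_vs.2 ⟨by norm_num, hc, Or.inl (by norm_num)⟩)]
          simp [F0, Fc, pb]
        · rw [lift_drop (mem_vs.2 ⟨by norm_num, by omega, Or.inr (Or.inl ⟨by norm_num, rfl⟩)⟩)]
          simp [F0, Fc]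
        · rw [lift_drop (mem_vs.2 ⟨by norm_num, by omega, Or.inr (Or.inl ⟨by norm_num, rfl⟩)⟩)]
          simp [F0, Fc]
      | tail _ hst ih =>
        obtain ⟨h1, l₀, h2⟩ := lift_step (nodup_vs φ) hst
        exact inv_step hφ hb ih h1 h2 hs
    have h1 : chi (red φ).1.graph (kk φ) (red φ).f₀ ≤ 3 + 6 * φ.length := ha
    have h2 : chi (red φ).1.graph (kk φ) (red φ).f₀ ∈
        {m | ∃ g, Reach (red φ).1.graph (kk φ) (red φ).f₀ g ∧ m = col g} :=
      Nat.sInf_mem ⟨_, (red φ).f₀, ⟨h0, Relation.ReflTransGen.refl⟩, rfl⟩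
    obtain ⟨g, ⟨-, hg⟩, he⟩ := h2
    have h3 := hinv g hg
    have h4 : ((Finset.range (kk φ) : Finset ℕ) : Set ℕ) ⊆ Set.range g := by
      intro c hc
      rw [Finset.coe_range] at hc
      have h5 := mem_range_lift (vs := vs φ) (f := g) (l := ((0, c) : Lb))
        (mem_vs.2 ⟨by norm_num, hc, Or.inl (by norm_num)⟩)
      rwa [h3.1 c hc] at h5
    have h5 := Set.ncard_le_ncard h4 (Set.finite_range g)
    rw [Set.ncard_coe_finset, Finset.card_range] at h5
    rw [he] at h1
    unfold col at h1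
    unfold kk at h5
    omega

theorem poly_F0 : Poly F0 := by
  unfold F0 Fc pa pb
  fun_prop

theorem poly_vs : Poly vs := by
  have h2 : Poly (fun φ : Fm => List.range (kk φ)) :=
    UPoly.range (UPoly.add (UPoly.const 4) (UPoly.mul (UPoly.const 6) (UPoly.length Poly.id)))
  unfold vs
  refine Poly.filter (p := fun (φ : Fm) (l : Lb) => decide (l.1 ≤ 1) ||
    ((decide (l.1 ≤ 3) && decide (l.2 = 0)) ||
      ((decide (4 ≤ l.1 ∧ l.1 ≤ 5) && decide (l.2 < φ.length)) ||
      (decide (6 ≤ l.1) && decide (l.2 < 3 * φ.length))))) ?_ ?_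
  · exact R671.poly_product (NPC.Poly.const _) h2
  · fun_prop

theorem poly_ad : Poly (fun p : (Fm × Lb) × Lb => ad p.1.1 p.1.2 p.2) := by
  unfold ad LsB LsA cl vr lc cs
  fun_prop

theorem poly_red : Poly red := by
  unfold red
  refine Poly.pair (poly_labGraph poly_vs poly_ad) (Poly.pair ?_ (Poly.pair ?_ ?_))
  · unfold kk; fun_prop
  · fun_prop
  · exact NPC.Poly.map (l := vs) (F := fun _ l => F0 l) poly_vs (poly_F0.comp (Poly.snd Poly.id))

end Pool.Agent.Q324.OCR
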