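import Pool.Agent.Q324.OCR.Defs

/-!
# The reduction
-/

namespace Pool.Agent.Q324.OCR

open Pool.Agent.NPC Pool.Agent.H692R2 Pool.Agent.Q324.Lab

/-! ### Graphs given by labels -/

section

variable {Λ : Type} [DecidableEq Λ]

/-- adjacency of labels of the list -/
def La (vs : List Λ) (ad : Λ → Λ → Bool) (a b : Λ) : Prop := a ∈ vs ∧ b ∈ vs ∧ sym ad a b = true

/-- the colouring of the labels -/
def lift (vs : List Λ) (f : Fin vs.length → ℕ) (l : Λ) : ℕ :=
  if h : l ∈ vs then f ⟨vs.idxOf l, List.idxOf_lt_length_iff.2 h⟩ else 0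

/-- colourings of labels -/
def ColL (vs : List Λ) (ad : Λ → Λ → Bool) (k : ℕ) (F : Λ → ℕ) : Prop :=
  (∀ a ∈ vs, F a < k) ∧ ∀ a b, La vs ad a b → F a ≠ F b

/-- the colouring of the graph -/
def drop (vs : List Λ) (F : Λ → ℕ) : Fin vs.length → ℕ := fun i => F (vs[i.1]'i.2)

variable {vs : List Λ} {ad : Λ → Λ → Bool} {k : ℕ}

theorem lift_colL {f : Fin vs.length → ℕ} (h : IsCol (labGraph vs ad).graph k f) :
    ColL vs ad k (lift vs f) := by
  refine ⟨fun a ha => ?_, fun a b ⟨ha, hb, hab⟩ => ?_⟩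
  · unfold lift
    rw [dif_pos ha]
    exact h.1 _
  · unfold lift
    rw [dif_pos ha, dif_pos hb]
    refine h.2 _ _ ?_
    change sym ad (vs[vs.idxOf a]'(List.idxOf_lt_length_iff.2 ha))
          (vs[vs.idxOf b]'(List.idxOf_lt_length_iff.2 hb)) = true
    rw [List.getElem_idxOf, List.getElem_idxOf]
    exact hab

theorem drop_col {F : Λ → ℕ} (h : ColL vs ad k F) :
    IsCol (labGraph vs ad).graph k (drop vs F) := by
  refine ⟨fun i => h.1 _ (List.getElem_mem _), fun i j hij => h.2 _ _ ?_⟩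
  exact ⟨List.getElem_mem _, List.getElem_mem _, hij⟩

theorem lift_step (hn : vs.Nodup) {f g : Fin vs.length → ℕ}
    (h : Step (labGraph vs ad).graph k f g) :
    ColL vs ad k (lift vs g) ∧ ∃ l₀, ∀ l, l ≠ l₀ → lift vs f l = lift vs g l := by
  obtain ⟨h1, h2, v, hv⟩ := h
  refine ⟨lift_colL h2, vs[v.1]'v.2, fun l hl => ?_⟩
  unfold lift
  by_cases hm : l ∈ vs
  · rw [dif_pos hm, dif_pos hm]
    refine hv _ fun he => hl ?_
    have := congrArg Fin.val he
    simp only at this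
    have h3 : vs[vs.idxOf l]'(List.idxOf_lt_length_iff.2 hm) = l := List.getElem_idxOf _
    rw [← h3]
    congr 1
  · rw [dif_neg hm, dif_neg hm]

theorem lift_drop {F : Λ → ℕ} {l : Λ} (h : l ∈ vs) : lift vs (drop vs F) l = F l := by
  unfold lift drop
  rw [dif_pos h]
  simp only
  rw [List.getElem_idxOf]

theorem mem_range_lift {f : Fin vs.length → ℕ} {l : Λ} (h : l ∈ vs) :
    lift vs f l ∈ Set.range f := by
  unfold lift
  rw [dif_pos h]
  exact ⟨_, rfl⟩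

theorem bulkL {F F' : Λ → ℕ} (h : ColL vs ad k F) (h' : ColL vs ad k F')
    (hd : ∀ a b, La vs ad a b → F a = F' a ∨ F b = F' b) :
    Relation.ReflTransGen (Step (labGraph vs ad).graph k) (drop vs F) (drop vs F') := by
  refine bulk (G := (labGraph vs ad).graph) (drop_col h) (drop_col h') fun i j hij => ?_
  exact hd _ _ ⟨List.getElem_mem _, List.getElem_mem _, hij⟩

end

/-! ### The reduction -/

/-- formulas -/
abbrev Fm : Type := List (Lit ℕ × Lit ℕ × Lit ℕ)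

/-- clauses -/
def cs (φ : Fm) (j : ℕ) : Lit ℕ × Lit ℕ × Lit ℕ :=
  φ.getD j ((true, 0), (true, 0), (true, 0))

/-- the colour of a literal -/
def lc (l : Lit ℕ) : ℕ := if l.1 = true then 5 + 2 * l.2 else 4 + 2 * l.2

/-- the colours of the literals of a clause -/
def cl (φ : Fm) (j : ℕ) : List ℕ := [lc (cs φ j).1, lc (cs φ j).2.1, lc (cs φ j).2.2]

/-- the variables of a clause -/
def vr (φ : Fm) (j : ℕ) : List ℕ := [(cs φ j).1.2, (cs φ j).2.1.2, (cs φ j).2.2.2]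

/-- labels: kind, index -/
abbrev Lb : Type := ℕ × ℕ

/-- the lists of colours of the vertices of the second side -/
def LsB (φ : Fm) (l : Lb) : List ℕ :=
  if l.1 = 1 then (if l.2 = 1 then [0, 1] else [l.2])
  else if l.1 = 2 then [1, 2]
  else if l.1 = 5 then 2 :: cl φ l.2
  else [4 + 2 * l.2, 5 + 2 * l.2]

/-- the lists of colours of the vertices of the first side which are not of the palette -/
def LsA (φ : Fm) (l : Lb) : List ℕ :=
  if l.1 = 3 then [0, 2]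
  else if l.1 = 4 then 2 :: cl φ l.2
  else [4 + 2 * l.2, 5 + 2 * l.2]

/-- the adjacency test; the first label is of the first side -/
def ad (φ : Fm) (p q : Lb) : Bool :=
  (decide (p.1 = 0) && (decide (q.1 ∈ [1, 2, 5, 6]) && !(decide (p.2 ∈ LsB φ q)))) ||
  ((decide (q.1 = 1) && (decide (p.1 ∈ [3, 4, 7]) && !(decide (q.2 ∈ LsA φ p)))) ||
  ((decide (p.1 = 3) && decide (q.1 = 5)) ||
  ((decide (p.1 = 4) && decide (q.1 = 2)) ||
  ((decide (p.1 = 4) && (decide (q.1 = 6) && decide (q.2 ∈ vr φ p.2))) ||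
  (decide (p.1 = 7) && (decide (q.1 = 5) && decide (p.2 ∈ vr φ q.2)))))))

/-- the number of colours -/
def kk (φ : Fm) : ℕ := 4 + 6 * φ.length

/-- the labels -/
def vs (φ : Fm) : List Lb :=
  ((List.range 8) ×ˢ (List.range (kk φ))).filter
    (fun l => decide (l.1 ≤ 1) || ((decide (l.1 ≤ 3) && decide (l.2 = 0)) ||
      ((decide (4 ≤ l.1 ∧ l.1 ≤ 5) && decide (l.2 < φ.length)) ||
      (decide (6 ≤ l.1) && decide (l.2 < 3 * φ.length)))))

theorem mem_vs {φ : Fm} {l : Lb} : l ∈ vs φ ↔ l.1 < 8 ∧ l.2 < kk φ ∧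
    (l.1 ≤ 1 ∨ (l.1 ≤ 3 ∧ l.2 = 0) ∨ ((4 ≤ l.1 ∧ l.1 ≤ 5) ∧ l.2 < φ.length) ∨
      (6 ≤ l.1 ∧ l.2 < 3 * φ.length)) := by
  obtain ⟨k, v⟩ := l
  unfold vs
  simp only [List.mem_filter, List.mem_product, List.mem_range, Bool.or_eq_true,
    Bool.and_eq_true, decide_eq_true_eq]
  exact ⟨fun h => ⟨h.1.1, h.1.2, h.2⟩, fun h => ⟨⟨h.1, h.2.1⟩, h.2.2⟩⟩

theorem nodup_vs (φ : Fm) : (vs φ).Nodup :=
  (List.nodup_range.product List.nodup_range).filter _

theorem ad_iff {φ : Fm} {p q : Lb} : ad φ p q = true ↔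
    (p.1 = 0 ∧ q.1 ∈ [1, 2, 5, 6] ∧ p.2 ∉ LsB φ q) ∨
    (q.1 = 1 ∧ p.1 ∈ [3, 4, 7] ∧ q.2 ∉ LsA φ p) ∨
    (p.1 = 3 ∧ q.1 = 5) ∨ (p.1 = 4 ∧ q.1 = 2) ∨
    (p.1 = 4 ∧ q.1 = 6 ∧ q.2 ∈ vr φ p.2) ∨ (p.1 = 7 ∧ q.1 = 5 ∧ p.2 ∈ vr φ q.2) := by
  unfold ad
  simp only [Bool.or_eq_true, Bool.and_eq_true, decide_eq_true_eq, Bool.not_eq_true',
    decide_eq_false_iff_not]

theorem la_of {φ : Fm} {p q : Lb} (hp : p ∈ vs φ) (hq : q ∈ vs φ) (hne : p ≠ q)
    (h : ad φ p q = true) : La (vs φ) (ad φ) p q :=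
  ⟨hp, hq, (sym_iff _ _ _).2 ⟨hne, Or.inl h⟩⟩

theorem colL_of {φ : Fm} {k : ℕ} {F : Lb → ℕ} (h1 : ∀ a ∈ vs φ, F a < k)
    (h2 : ∀ p q, p ∈ vs φ → q ∈ vs φ → ad φ p q = true → F p ≠ F q) :
    ColL (vs φ) (ad φ) k F := by
  refine ⟨h1, fun a b ⟨ha, hb, hab⟩ => ?_⟩
  rw [sym_iff] at hab
  rcases hab.2 with h | h
  · exact h2 _ _ ha hb h
  · exact (h2 _ _ hb ha h).symm

/-- the graph is bipartite -/
theorem two_col (φ : Fm) : (labGraph (vs φ) (ad φ)).graph.Colorable 2 := by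
  have h : ColL (vs φ) (ad φ) 2 (fun l => if l.1 ∈ [0, 3, 4, 7] then 0 else 1) := by
    refine colL_of (fun a _ => by split_ifs <;> omega) fun p q _ _ hpq => ?_
    rw [ad_iff] at hpq
    have hp : p.1 ∈ [0, 3, 4, 7] := by
      simp only [List.mem_cons, List.not_mem_nil, or_false] at hpq ⊢
      omega
    have hq : q.1 ∉ [0, 3, 4, 7] := by
      simp only [List.mem_cons, List.not_mem_nil, or_false] at hpq ⊢
      omega
    simp only [if_pos hp, if_neg hq]
    omega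
  have h' := drop_col h
  exact ⟨SimpleGraph.Coloring.mk (fun v => (⟨drop (vs φ) _ v, h'.1 v⟩ : Fin 2))
    (fun {u v} huv he => h'.2 u v huv (congrArg Fin.val he))⟩

/-! ### Soundness -/

theorem sat_of {φ : Fm} (hb : ∀ c ∈ φ, c.1.2 < 3 * φ.length ∧ c.2.1.2 < 3 * φ.length ∧
      c.2.2.2 < 3 * φ.length) {C X : ℕ → ℕ}
    (hC : ∀ j < φ.length, C j ∈ cl φ j) (hX : ∀ x < 3 * φ.length, X x ∈ [4 + 2 * x, 5 + 2 * x])
    (hCX : ∀ j < φ.length, ∀ x < 3 * φ.length, x ∈ vr φ j → C j ≠ X x) : SAT3 φ := by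
  refine ⟨fun x => decide (X x = 4 + 2 * x), fun c hc => ?_⟩
  obtain ⟨j, hj, rfl⟩ := List.getElem_of_mem hc
  have e : cs φ j = φ[j] := by
    unfold cs
    rw [List.getD_eq_getElem _ _ hj]
  obtain ⟨hb1, hb2, hb3⟩ := hb _ hc
  have hCj := hC j hj
  have hCXj := hCX j hj
  unfold cl at hCj
  unfold vr at hCXj
  rw [e] at hCj hCXj
  simp only [List.mem_cons, List.not_mem_nil, or_false] at hCj hCXj hX
  have key : ∀ l : Lit ℕ, l.2 < 3 * φ.length → C j = lc l → C j ≠ X l.2 →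
      decide (X l.2 = 4 + 2 * l.2) = l.1 := by
    rintro ⟨s, x⟩ hx h1 h2
    have h3 := hX x hx
    simp only at h2 ⊢
    cases s
    · simp only [lc, Bool.false_eq_true, if_false] at h1
      rw [decide_eq_false_iff_not]
      omega
    · simp only [lc, if_true] at h1
      rw [decide_eq_true_eq]
      omega
  rcases hCj with h | h | h
  · exact Or.inl (key _ hb1 h (hCXj _ hb1 (Or.inl rfl)))
  · exact Or.inr (Or.inl (key _ hb2 h (hCXj _ hb2 (Or.inr (Or.inl rfl)))))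
  · exact Or.inr (Or.inr (key _ hb3 h (hCXj _ hb3 (Or.inr (Or.inr rfl)))))

/-- the invariant -/
def Inv (φ : Fm) (F : Lb → ℕ) : Prop :=
  (∀ c < kk φ, F (0, c) = c) ∧ (∀ c < kk φ, F (1, c) = c) ∧ F (2, 0) = 1 ∧ F (3, 0) = 0

theorem memB {φ : Fm} {F : Lb → ℕ} (hF : ColL (vs φ) (ad φ) (kk φ) F)
    (h0 : ∀ c < kk φ, F (0, c) = c) {q : Lb} (hq : q ∈ vs φ) (hk : q.1 ∈ [1, 2, 5, 6]) :
    F q ∈ LsB φ q := by
  by_contra hc
  have h1 := hF.1 q hq
  have h2 : (0, F q) ∈ vs φ := mem_vs.2 ⟨by norm_num, h1, Or.inl (by norm_num)⟩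
  have h3 : La (vs φ) (ad φ) (0, F q) q := by
    refine la_of h2 hq ?_ (ad_iff.2 (Or.inl ⟨rfl, hk, hc⟩))
    intro he
    rw [← he] at hk
    simp at hk
  exact hF.2 _ _ h3 (h0 _ h1)

theorem memA {φ : Fm} {F : Lb → ℕ} (hF : ColL (vs φ) (ad φ) (kk φ) F)
    (h0 : ∀ c < kk φ, F (1, c) = c) {p : Lb} (hp : p ∈ vs φ) (hk : p.1 ∈ [3, 4, 7]) :
    F p ∈ LsA φ p := by
  by_contra hc
  have h1 := hF.1 p hp
  have h2 : (1, F p) ∈ vs φ := mem_vs.2 ⟨by norm_num, h1, Or.inl (by norm_num)⟩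
  have h3 : La (vs φ) (ad φ) p (1, F p) := by
    refine la_of hp h2 ?_ (ad_iff.2 (Or.inr (Or.inl ⟨rfl, hk, hc⟩)))
    intro he
    rw [he] at hk
    simp at hk
  exact hF.2 _ _ h3 (h0 _ h1).symm

theorem inv_step {φ : Fm} (hφ : φ ≠ [])
    (hb : ∀ c ∈ φ, c.1.2 < 3 * φ.length ∧ c.2.1.2 < 3 * φ.length ∧
      c.2.2.2 < 3 * φ.length) {F G : Lb → ℕ} (hF : Inv φ F)
    (hG : ColL (vs φ) (ad φ) (kk φ) G) {l₀ : Lb} (hl : ∀ l, l ≠ l₀ → F l = G l)
    (hs : ¬ SAT3 φ) : Inv φ G := by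
  have hm : 0 < φ.length := List.length_pos_iff.2 hφ
  have hkk : kk φ = 4 + 6 * φ.length := rfl
  have m2 : ((2, 0) : Lb) ∈ vs φ := mem_vs.2 ⟨by norm_num, by omega, Or.inr (Or.inl ⟨by norm_num, rfl⟩)⟩
  have m3 : ((3, 0) : Lb) ∈ vs φ := mem_vs.2 ⟨by norm_num, by omega, Or.inr (Or.inl ⟨by norm_num, rfl⟩)⟩
  have m0 : ∀ c < kk φ, ((0, c) : Lb) ∈ vs φ := fun c hc =>
    mem_vs.2 ⟨by norm_num, hc, Or.inl (by norm_num)⟩
  have m1 : ∀ c < kk φ, ((1, c) : Lb) ∈ vs φ := fun c hc =>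
    mem_vs.2 ⟨by norm_num, hc, Or.inl (by norm_num)⟩
  have m45 : ∀ a, (a = 4 ∨ a = 5) → ∀ j < φ.length, ((a, j) : Lb) ∈ vs φ := fun a ha j hj =>
    mem_vs.2 ⟨by dsimp only; omega, by dsimp only; omega,
      Or.inr (Or.inr (Or.inl ⟨by dsimp only; omega, hj⟩))⟩
  have m67 : ∀ a, (a = 6 ∨ a = 7) → ∀ j < 3 * φ.length, ((a, j) : Lb) ∈ vs φ := fun a ha j hj =>
    mem_vs.2 ⟨by dsimp only; omega, by dsimp only; omega,
      Or.inr (Or.inr (Or.inr ⟨by dsimp only; omega, hj⟩))⟩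
  obtain ⟨f0, f1, f2, f3⟩ := hF
  by_cases hA : l₀.1 ∈ [0, 3, 4, 7]
  · -- the second side does not change
    have hB : ∀ l : Lb, l.1 ∉ [0, 3, 4, 7] → F l = G l := fun l h => hl l fun he => h (he ▸ hA)
    have g1 : ∀ c < kk φ, G (1, c) = c := fun c hc => by
      rw [← hB (1, c) (by simp)]; exact f1 c hc
    have g2 : G (2, 0) = 1 := by rw [← hB (2, 0) (by simp)]; exact f2
    have g0 : ∀ c < kk φ, G (0, c) = c := by
      intro c hc
      by_contra hne
      have h1 := hG.1 _ (m0 c hc)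
      by_cases h2 : c = 0 ∧ G (0, c) = 1
      · obtain ⟨rfl, h2⟩ := h2
        refine hG.2 (0, 0) (2, 0) (la_of (m0 0 hc) m2 (by simp)
          (ad_iff.2 (Or.inl ⟨rfl, by simp, by simp [LsB]⟩))) ?_
        rw [h2, g2]
      · refine hG.2 (0, c) (1, G (0, c)) (la_of (m0 c hc) (m1 _ h1) (by simp)
          (ad_iff.2 (Or.inl ⟨rfl, by simp, ?_⟩))) (g1 _ h1).symm
        simp only [LsB, if_true]
        split_ifs with h3
        · simp only [List.mem_cons, List.not_mem_nil, or_false]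
          omega
        · simp only [List.mem_cons, List.not_mem_nil, or_false]
          omega
    refine ⟨g0, g1, g2, ?_⟩
    have h3 := memA hG g1 m3 (by simp)
    simp only [LsA, if_true, List.mem_cons, List.not_mem_nil, or_false] at h3
    rcases h3 with h3 | h3
    · exact h3
    · refine absurd (sat_of hb (C := fun j => G (5, j)) (X := fun x => G (7, x)) ?_ ?_ ?_) hs
      · intro j hj
        have h4 := memB hG g0 (m45 5 (Or.inr rfl) j hj) (by simp)
        simp only [LsB] at h4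
        norm_num at h4
        rcases h4 with h4 | h4
        · refine absurd ?_ (hG.2 (3, 0) (5, j) (la_of m3 (m45 5 (Or.inr rfl) j hj) (by simp)
            (ad_iff.2 (Or.inr (Or.inr (Or.inl ⟨rfl, rfl⟩))))))
          rw [h3, h4]
        · exact h4
      · intro x hx
        have h4 := memA hG g1 (m67 7 (Or.inr rfl) x hx) (by simp)
        simp only [LsA] at h4
        norm_num at h4
        simpa using h4
      · intro j hj x hx hxj
        exact (hG.2 (7, x) (5, j) (la_of (m67 7 (Or.inr rfl) x hx) (m45 5 (Or.inr rfl) j hj)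
          (by simp) (ad_iff.2 (Or.inr (Or.inr (Or.inr (Or.inr (Or.inr ⟨rfl, rfl, hxj⟩)))))))).symm
  · -- the first side does not change
    have hB : ∀ l : Lb, l.1 ∈ [0, 3, 4, 7] → F l = G l := fun l h => hl l fun he => hA (he ▸ h)
    have g0 : ∀ c < kk φ, G (0, c) = c := fun c hc => by
      rw [← hB (0, c) (by simp)]; exact f0 c hc
    have g3 : G (3, 0) = 0 := by rw [← hB (3, 0) (by simp)]; exact f3
    have g1 : ∀ c < kk φ, G (1, c) = c := by
      intro c hc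
      by_contra hne
      have h1 := hG.1 _ (m1 c hc)
      by_cases h2 : c = 1 ∧ G (1, c) = 0
      · obtain ⟨rfl, h2⟩ := h2
        refine hG.2 (3, 0) (1, 1) (la_of m3 (m1 1 hc) (by simp)
          (ad_iff.2 (Or.inr (Or.inl ⟨rfl, by simp, by simp [LsA]⟩)))) ?_
        rw [h2, g3]
      · refine hG.2 (0, G (1, c)) (1, c) (la_of (m0 _ h1) (m1 c hc) (by simp)
          (ad_iff.2 (Or.inl ⟨rfl, by simp, ?_⟩))) (g0 _ h1)
        simp only [LsB, if_true]
        split_ifs with h3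
        · simp only [List.mem_cons, List.not_mem_nil, or_false]
          omega
        · simp only [List.mem_cons, List.not_mem_nil, or_false]
          omega
    refine ⟨g0, g1, ?_, g3⟩
    have h3 := memB hG g0 m2 (by simp)
    simp only [LsB] at h3
    norm_num at h3
    rcases h3 with h3 | h3
    · exact h3
    · refine absurd (sat_of hb (C := fun j => G (4, j)) (X := fun x => G (6, x)) ?_ ?_ ?_) hs
      · intro j hj
        have h4 := memA hG g1 (m45 4 (Or.inl rfl) j hj) (by simp)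
        simp only [LsA] at h4
        norm_num at h4
        rcases h4 with h4 | h4
        · refine absurd ?_ (hG.2 (4, j) (2, 0) (la_of (m45 4 (Or.inl rfl) j hj) m2 (by simp)
            (ad_iff.2 (Or.inr (Or.inr (Or.inr (Or.inl ⟨rfl, rfl⟩)))))))
          rw [h3, h4]
        · exact h4
      · intro x hx
        have h4 := memB hG g0 (m67 6 (Or.inl rfl) x hx) (by simp)
        simp only [LsB] at h4
        norm_num at h4
        simpa using h4
      · intro j hj x hx hxj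
        exact hG.2 (4, j) (6, x) (la_of (m45 4 (Or.inl rfl) j hj) (m67 6 (Or.inl rfl) x hx)
          (by simp) (ad_iff.2 (Or.inr (Or.inr (Or.inr (Or.inr (Or.inl ⟨rfl, rfl, hxj⟩)))))))

end Pool.Agent.Q324.OCR
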